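import Pool.Agent.Work.MP_db9399_exp.Interface
import Pool.Agent.Work.MP_db9399_co.Konig
import Pool.Agent.Work.MP_db9399_all_helper6.LLLI

/-!
# Block UCOL (owner helper59): random colouring of the edges at `U` from lists
-/

set_option autoImplicit false

namespace Pool.Agent.Work.MP_db9399_exp.helper59

open Finset Classical
open Pool.Agent.Work.MP_db9399_exp
open Pool.Agent.Work.MP_db9399_all (nb pr DepOnI PackI)

universe u

namespace UCOLAux

/-- exponential moment bound for the number of hits -/
theorem chern {J : Type u} [Fintype J] (M : ℕ) (hM : 0 < M) (S : Finset J)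
    (B : J → Finset (Fin M)) (mu t : ℝ) (hmu : (∑ y ∈ S, ((B y).card : ℝ)) ≤ mu * M) :
    pr (fun f : J → Fin M => t < ((S.filter (fun y => f y ∈ B y)).card : ℝ)) ≤
      Real.exp (2 * mu - t) := by
  have hM' : (0 : ℝ) < M := by exact_mod_cast hM
  have he : Real.exp 1 - 1 ≤ 2 := by
    have := Real.exp_one_lt_d9
    linarith
  have he0 : 0 ≤ Real.exp 1 - 1 := by
    have := Real.add_one_le_exp (1 : ℝ)
    linarith
  set h : J → Fin M → ℝ := fun y j => if y ∈ S ∧ j ∈ B y then Real.exp 1 else 1 with hh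
  have h1 : ∀ f : J → Fin M,
      (if t < ((S.filter (fun y => f y ∈ B y)).card : ℝ) then (1 : ℝ) else 0) ≤
        Real.exp (-t) * ∏ y, h y (f y) := by
    intro f
    have hprod : ∏ y, h y (f y) = Real.exp ((S.filter (fun y => f y ∈ B y)).card : ℝ) := by
      have e1 : ∏ y, h y (f y) = ∏ y ∈ univ.filter (fun y => y ∈ S ∧ f y ∈ B y), Real.exp 1 := by
        rw [Finset.prod_filter]
      have e2 : univ.filter (fun y => y ∈ S ∧ f y ∈ B y) = S.filter (fun y => f y ∈ B y) := by
        ext y; simp
      rw [e1, e2, Finset.prod_const, Real.exp_one_pow]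
    rw [hprod, ← Real.exp_add]
    split_ifs with hc
    · exact Real.one_le_exp (by linarith)
    · positivity
  have h2 : ((univ.filter (fun f : J → Fin M =>
      t < ((S.filter (fun y => f y ∈ B y)).card : ℝ))).card : ℝ) ≤
      Real.exp (-t) * ∑ f : J → Fin M, ∏ y, h y (f y) := by
    rw [Finset.mul_sum, Finset.card_filter]
    push_cast
    exact Finset.sum_le_sum (fun f _ => h1 f)
  have h3 : (∑ f : J → Fin M, ∏ y, h y (f y)) = ∏ y, ∑ j, h y j := by
    rw [Finset.prod_univ_sum]
    simp
  have h4 : ∀ y, (∑ j, h y j) ≤ M * Real.exp (if y ∈ S then 2 * ((B y).card : ℝ) / M else 0) := by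
    intro y
    by_cases hy : y ∈ S
    · have e1 : (∑ j, h y j) = M + (Real.exp 1 - 1) * (B y).card := by
        have : ∀ j, h y j = 1 + (Real.exp 1 - 1) * (if j ∈ B y then 1 else 0) := by
          intro j
          simp only [hh, hy, true_and]
          split_ifs <;> ring
        rw [Finset.sum_congr rfl (fun j _ => this j), Finset.sum_add_distrib, ← Finset.mul_sum]
        simp
      rw [e1, if_pos hy]
      have e2 := Real.add_one_le_exp (2 * ((B y).card : ℝ) / M)
      have e3 : (M : ℝ) * (2 * ((B y).card : ℝ) / M + 1) = M + 2 * (B y).card := by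
        field_simp
        ring
      have e4 := mul_le_mul_of_nonneg_left e2 hM'.le
      rw [e3] at e4
      refine le_trans ?_ e4
      have : (Real.exp 1 - 1) * ((B y).card : ℝ) ≤ 2 * (B y).card :=
        mul_le_mul_of_nonneg_right he (by positivity)
      linarith
    · rw [if_neg hy]
      simp [hh, hy]
  have h5 : (∏ y, ∑ j, h y j) ≤ (M : ℝ) ^ (Fintype.card J) * Real.exp (2 * mu) := by
    calc (∏ y, ∑ j, h y j)
        ≤ ∏ y, (M * Real.exp (if y ∈ S then 2 * ((B y).card : ℝ) / M else 0)) := by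
          apply Finset.prod_le_prod
          · intro y _
            apply Finset.sum_nonneg
            intro j _
            simp only [hh]
            split_ifs <;> positivity
          · intro y _
            exact h4 y
      _ = (M : ℝ) ^ (Fintype.card J) *
            Real.exp (∑ y, (if y ∈ S then 2 * ((B y).card : ℝ) / M else 0)) := by
          rw [Finset.prod_mul_distrib, Real.exp_sum]
          simp
      _ ≤ (M : ℝ) ^ (Fintype.card J) * Real.exp (2 * mu) := by
          apply mul_le_mul_of_nonneg_left _ (by positivity)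
          apply Real.exp_le_exp.2
          rw [← Finset.sum_filter]
          have : univ.filter (fun y => y ∈ S) = S := by ext; simp
          rw [this, ← Finset.sum_div, ← Finset.mul_sum, div_le_iff₀ hM']
          linarith
  unfold pr
  have hcard : (Fintype.card (J → Fin M) : ℝ) = (M : ℝ) ^ (Fintype.card J) := by
    rw [Fintype.card_fun, Fintype.card_fin]
    push_cast
    rfl
  rw [div_le_iff₀ (by rw [hcard]; positivity), hcard]
  calc _ ≤ Real.exp (-t) * ((M : ℝ) ^ (Fintype.card J) * Real.exp (2 * mu)) := by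
        refine h2.trans ?_
        rw [h3]
        exact mul_le_mul_of_nonneg_left h5 (by positivity)
    _ = Real.exp (2 * mu - t) * (M : ℝ) ^ (Fintype.card J) := by
        rw [show 2 * mu - t = -t + 2 * mu by ring, Real.exp_add]
        ring

/-- Koenig: `D` disjoint choices from the lists -/
theorem sel {V : Type u} [Fintype V] (D k : ℕ) (hk : 0 < k) (S : Finset V)
    (L : V → Finset (Fin k)) (hL : ∀ w ∈ S, (L w).card = D)
    (hb : ∀ b, (S.filter (fun w => b ∈ L w)).card ≤ D) :
    ∃ t : Fin D → V → Fin k, (∀ j, ∀ w ∈ S, t j w ∈ L w) ∧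
      (∀ j, ∀ w ∈ S, ∀ w' ∈ S, t j w = t j w' → w = w') ∧
      ∀ w ∈ S, Function.Injective (fun j => t j w) := by
  set Ed : Finset (V × Fin k) := (S ×ˢ univ).filter (fun e => e.2 ∈ L e.1) with hEd
  obtain ⟨κ, hκ1, hκ2⟩ := _root_.MP_db9399_co.konig (E := V × Fin k) Prod.fst Prod.snd D Ed
    (by
      intro v
      by_cases hv : v ∈ S
      · have : Ed.filter (fun e => e.1 = v) ⊆ (L v).image (fun b => (v, b)) := by
          intro e he
          rw [mem_filter, hEd, mem_filter, mem_product] at he
          rw [mem_image]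
          refine ⟨e.2, ?_, ?_⟩
          · rw [← he.2]; exact he.1.2
          · rw [← he.2]
        refine (card_le_card this).trans (card_image_le.trans (hL v hv).le)
      · have : Ed.filter (fun e => e.1 = v) = ∅ := by
          apply filter_eq_empty_iff.2
          intro e he hev
          rw [hEd, mem_filter, mem_product] at he
          exact hv (hev ▸ he.1.1)
        rw [this]; simp)
    (by
      intro b
      have : Ed.filter (fun e => e.2 = b) ⊆ (S.filter (fun w => b ∈ L w)).image
          (fun w => (w, b)) := by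
        intro e he
        rw [mem_filter, hEd, mem_filter, mem_product] at he
        rw [mem_image]
        refine ⟨e.1, mem_filter.2 ⟨he.1.1.1, ?_⟩, ?_⟩
        · rw [← he.2]; exact he.1.2
        · rw [← he.2]
      exact (card_le_card this).trans (card_image_le.trans (hb b)))
  -- every class saturates every vertex of S
  have key : ∀ w ∈ S, ∀ j : Fin D, ∃ b ∈ L w, κ (w, b) = j := by
    intro w hw j
    have hinj : Set.InjOn (fun b => κ (w, b)) (L w : Set (Fin k)) := by
      intro b hb' b' hb'' h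
      by_contra hne
      have m1 : (w, b) ∈ Ed := by
        rw [hEd, mem_filter, mem_product]; exact ⟨⟨hw, mem_univ _⟩, hb'⟩
      have m2 : (w, b') ∈ Ed := by
        rw [hEd, mem_filter, mem_product]; exact ⟨⟨hw, mem_univ _⟩, hb''⟩
      exact hκ2 _ m1 _ m2 (fun h => hne (Prod.ext_iff.1 h).2) (Or.inl rfl) h
    have himg : (L w).image (fun b => κ (w, b)) = range D := by
      apply eq_of_subset_of_card_le
      · intro x hx
        rw [mem_image] at hx
        obtain ⟨b, hb', rfl⟩ := hx
        rw [mem_range]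
        exact hκ1 _ (by rw [hEd, mem_filter, mem_product]; exact ⟨⟨hw, mem_univ _⟩, hb'⟩)
      · rw [card_range, card_image_of_injOn hinj, hL w hw]
    have : (j : ℕ) ∈ (L w).image (fun b => κ (w, b)) := by
      rw [himg, mem_range]; exact j.2
    rw [mem_image] at this
    exact this
  have : Nonempty (Fin k) := ⟨⟨0, hk⟩⟩
  choose! t0 ht0 using key
  refine ⟨fun j w => if w ∈ S then t0 w j else ⟨0, hk⟩, ?_, ?_, ?_⟩
  · intro j w hw
    simp only [hw, if_true]
    exact (ht0 w hw j).1
  · intro j w hw w' hw' h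
    simp only [hw, hw', if_true] at h
    by_contra hne
    have m1 : (w, t0 w j) ∈ Ed := by
      rw [hEd, mem_filter, mem_product]; exact ⟨⟨hw, mem_univ _⟩, (ht0 w hw j).1⟩
    have m2 : (w', t0 w' j) ∈ Ed := by
      rw [hEd, mem_filter, mem_product]; exact ⟨⟨hw', mem_univ _⟩, (ht0 w' hw' j).1⟩
    refine hκ2 _ m1 _ m2 (fun h => hne (Prod.ext_iff.1 h).1) (Or.inr h) ?_
    rw [(ht0 w hw j).2, (ht0 w' hw' j).2]
  · intro w hw j j' h
    simp only [hw, if_true] at h
    have h1 := (ht0 w hw j).2
    have h2 := (ht0 w hw j').2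
    rw [h] at h1
    exact Fin.ext (h1.symm.trans h2)

/-- double counting of the paths of length two -/
theorem paths {V : Type u} [Fintype V] (G R : SimpleGraph V) (U : Finset V) (hRG : R ≤ G)
    (hU : ∀ v, (univ.filter (fun u => u ∈ U ∧ G.Adj v u)).card ≤ 2) (y : V) :
    (∑ u ∈ U, (nb G y ∩ nb R u).card) ≤ 2 * (nb G y).card := by
  have h1 : (∑ u ∈ U, (nb G y ∩ nb R u).card) = ∑ w ∈ nb G y, (U.filter (fun u => w ∈ nb R u)).card := by
    have := Finset.sum_card_bipartiteAbove_eq_sum_card_bipartiteBelow (s := U) (t := nb G y)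
      (r := fun u w => w ∈ nb R u)
    simp only [bipartiteAbove, bipartiteBelow] at this
    rw [← this]
    apply Finset.sum_congr rfl
    intro u _
    congr 1
  rw [h1, mul_comm, ← smul_eq_mul]
  apply Finset.sum_le_card_nsmul
  intro w _
  refine le_trans (card_le_card ?_) (hU w)
  intro u hu
  rw [mem_filter] at hu
  rw [mem_filter]
  refine ⟨mem_univ _, hu.1, ?_⟩
  have h2 : R.Adj u w := by simpa [nb] using hu.2
  exact (hRG h2).symm

end UCOLAux

open UCOLAux in
theorem stmt_UCOL' (c δ : ℝ) (hc : 0 < c) (hδ : 0 < δ) :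
    ∃ d0 : ℕ, ∀ {V : Type u} [Fintype V] (G R : SimpleGraph V)
    (d D k : ℕ) (U : Finset V) (Ga : Finset (Fin k)) (Γ : Type) (grp : V → V → Γ)
    (Al : V → V → Finset (Fin k)), 0 < k → d0 ≤ d → c * d ≤ (D : ℝ) → D ≤ d → Ga.card ≤ d →
    (∀ v, (nb G v).card ≤ d) → R ≤ G → (∀ v, (univ.filter (fun u => u ∈ U ∧ G.Adj v u)).card ≤ 2) →
    (∀ u ∈ U, ∀ γ, ((nb R u).filter (fun w => grp u w = γ)).card ≤ D) →
    (∀ u ∈ U, ∀ w ∈ nb R u, Al u w ⊆ Ga ∧ D ≤ (Al u w).card) →
    (∀ u ∈ U, ∀ w ∈ nb R u, ∀ w' ∈ nb R u, grp u w ≠ grp u w' → Disjoint (Al u w) (Al u w')) →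
    ∃ t : V → V → Fin k, (∀ u ∈ U, ∀ w ∈ nb R u, t u w ∈ Al u w) ∧
      (∀ u ∈ U, Set.InjOn (t u) (nb R u : Set V)) ∧
      ∀ y, ∀ b ∈ Ga, (((nb G y).filter (fun w => ∃ u ∈ U, R.Adj u w ∧ t u w = b)).card : ℝ) ≤
        δ * d := by
  set T : ℝ := min (δ / 8) (1 / 4) with hT
  have hT0 : 0 < T := by rw [hT]; exact lt_min (by linarith) (by norm_num)
  have hT1 : T ≤ 1 / 4 := min_le_right _ _
  have hT2 : T ≤ δ / 8 := min_le_left _ _
  set K : ℝ := 384 * Real.exp (4 / c) / (δ ^ 4 * T) with hK
  refine ⟨max 1 ⌈K⌉₊, ?_⟩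
  intro V _ G R d D k U Ga Γ grp Al hk hd hcd hDd hGa hdeg hRG hU2 hgrp hAl hdis
  have hd1 : 1 ≤ d := (le_max_left _ _).trans hd
  have hd1' : (1 : ℝ) ≤ d := by exact_mod_cast hd1
  have hdK : K ≤ (d : ℝ) := by
    refine (Nat.le_ceil K).trans ?_
    exact_mod_cast (le_max_right _ _).trans hd
  have hD0' : (0 : ℝ) < D := lt_of_lt_of_le (by positivity) hcd
  have hD0 : 0 < D := by exact_mod_cast hD0'
  -- the lists of size exactly D
  have hL : ∀ u w, ∃ L : Finset (Fin k), u ∈ U → w ∈ nb R u → L ⊆ Al u w ∧ L.card = D := by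
    intro u w
    by_cases h : u ∈ U ∧ w ∈ nb R u
    · obtain ⟨L, h1, h2⟩ := exists_subset_card_eq (hAl u h.1 w h.2).2
      exact ⟨L, fun _ _ => ⟨h1, h2⟩⟩
    · exact ⟨∅, fun h1 h2 => absurd ⟨h1, h2⟩ h⟩
  choose L hL using hL
  have hsel : ∀ u, ∃ t : Fin D → V → Fin k, u ∈ U →
      (∀ j, ∀ w ∈ nb R u, t j w ∈ L u w) ∧
      (∀ j, ∀ w ∈ nb R u, ∀ w' ∈ nb R u, t j w = t j w' → w = w') ∧
      ∀ w ∈ nb R u, Function.Injective (fun j => t j w) := by
    intro u
    by_cases hu : u ∈ U
    · obtain ⟨t, h⟩ := sel D k hk (nb R u) (L u) (fun w hw => (hL u w hu hw).2)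
        (by
          intro b
          rcases (((nb R u).filter (fun w => b ∈ L u w))).eq_empty_or_nonempty with he | ⟨w0, hw0⟩
          · rw [he]; simp
          · rw [mem_filter] at hw0
            refine le_trans (card_le_card ?_) (hgrp u hu (grp u w0))
            intro w hw
            rw [mem_filter] at hw ⊢
            refine ⟨hw.1, ?_⟩
            by_contra hne
            exact disjoint_left.1 (hdis u hu w hw.1 w0 hw0.1 hne)
              ((hL u w hu hw.1).1 hw.2) ((hL u w0 hu hw0.1).1 hw0.2))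
      exact ⟨t, fun _ => h⟩
    · exact ⟨fun _ _ => ⟨0, hk⟩, fun h => absurd h hu⟩
  choose tt htt using hsel
  set B : V → Fin k → V → Finset (Fin D) := fun y b u =>
    univ.filter (fun j => ∃ w ∈ nb G y ∩ nb R u, tt u j w = b) with hB
  set Uy : V → Finset V := fun y => U.filter (fun u => (nb G y ∩ nb R u).Nonempty) with hUy
  have hBc : ∀ y b, ∀ u ∈ U, (B y b u).card ≤ (nb G y ∩ nb R u).card := by
    intro y b u hu
    have h1 : B y b u ⊆ (nb G y ∩ nb R u).biUnion (fun w => univ.filter (fun j => tt u j w = b)) := by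
      intro j hj
      rw [hB] at hj
      simp only [mem_filter, mem_univ, true_and] at hj
      obtain ⟨w, hw, hwb⟩ := hj
      rw [mem_biUnion]
      exact ⟨w, hw, by simp [hwb]⟩
    refine (card_le_card h1).trans (card_biUnion_le.trans ?_)
    rw [card_eq_sum_ones]
    apply Finset.sum_le_sum
    intro w hw
    rw [card_le_one]
    intro j hj j' hj'
    simp only [mem_filter, mem_univ, true_and] at hj hj'
    exact (htt u hu).2.2 w (mem_inter.1 hw).2 (hj.trans hj'.symm)
  have hpath : ∀ y, (∑ u ∈ U, (nb G y ∩ nb R u).card) ≤ 2 * d := fun y =>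
    (paths G R U hRG hU2 y).trans (Nat.mul_le_mul_left 2 (hdeg y))
  have hUc : ∀ y, (Uy y).card ≤ 2 * d := by
    intro y
    refine le_trans ?_ (hpath y)
    rw [card_eq_sum_ones]
    calc (∑ x ∈ Uy y, 1) ≤ ∑ u ∈ Uy y, (nb G y ∩ nb R u).card := by
          apply Finset.sum_le_sum
          intro u hu
          exact card_pos.2 (mem_filter.1 hu).2
      _ ≤ _ := Finset.sum_le_sum_of_subset (filter_subset _ _)
  set W : ℝ := d * Real.exp (4 / c - δ * d / 2) with hW
  suffices hkey : ∃ f : V → Fin D, ∀ y, ∀ b ∈ Ga,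
      (((nb G y).filter (fun w => ∃ u ∈ U, R.Adj u w ∧ tt u (f u) w = b)).card : ℝ) ≤ δ * d by
    obtain ⟨f, hf⟩ := hkey
    refine ⟨fun u w => tt u (f u) w, ?_, ?_, fun y b hb => hf y b hb⟩
    · intro u hu w hw
      exact (hL u w hu hw).1 ((htt u hu).1 (f u) w hw)
    · intro u hu w hw w' hw' h
      exact (htt u hu).2.1 (f u) w (by simpa using hw) w' (by simpa using hw') h
  refine Pool.Agent.Work.MP_db9399_all.stmt_LLLI V D V T Uy (fun _ => W)
    (fun y f => ∀ b ∈ Ga,
      (((nb G y).filter (fun w => ∃ u ∈ U, R.Adj u w ∧ tt u (f u) w = b)).card : ℝ) ≤ δ * d)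
    hD0 hT0.le hT1 ?_ ?_
  · intro y
    refine ⟨ULift.{u} {b : Fin k // b ∈ Ga ∧ (Uy y).Nonempty}, inferInstance, fun _ => Uy y,
      fun b f => δ * d < (((Uy y).filter (fun u => f u ∈ B y b.down.1 u)).card : ℝ), ?_, ?_, ?_, ?_, ?_⟩
    · intro b f f' hff
      have : (Uy y).filter (fun u => f u ∈ B y b.down.1 u) =
          (Uy y).filter (fun u => f' u ∈ B y b.down.1 u) := by
        apply filter_congr
        intro u hu
        rw [hff u hu]
      simp only [this]
    · intro b
      exact b.down.2.2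
    · intro b
      exact Subset.rfl
    · have hterm : ∀ b : ULift.{u} {b : Fin k // b ∈ Ga ∧ (Uy y).Nonempty},
          pr (fun f : V → Fin D =>
            δ * d < (((Uy y).filter (fun u => f u ∈ B y b.down.1 u)).card : ℝ)) *
            Real.exp (2 * T * ((Uy y).card : ℝ)) ≤ Real.exp (4 / c - δ * d / 2) := by
        intro b
        have h1 := chern D hD0 (Uy y) (B y b.down.1) (2 / c) (δ * d) (by
          have e1 : (∑ u ∈ Uy y, (B y b.down.1 u).card) ≤ 2 * d := by
            refine le_trans ?_ (hpath y)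
            calc (∑ u ∈ Uy y, (B y b.down.1 u).card) ≤ ∑ u ∈ Uy y, (nb G y ∩ nb R u).card :=
                  Finset.sum_le_sum (fun u hu => hBc y _ u (mem_filter.1 hu).1)
              _ ≤ _ := Finset.sum_le_sum_of_subset (filter_subset _ _)
          have e2 : (∑ u ∈ Uy y, ((B y b.down.1 u).card : ℝ)) ≤ 2 * d := by exact_mod_cast e1
          refine e2.trans ?_
          rw [div_mul_eq_mul_div, le_div_iff₀ hc]
          linarith)
        have h2 : Real.exp (2 * T * ((Uy y).card : ℝ)) ≤ Real.exp (δ * d / 2) := by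
          apply Real.exp_le_exp.2
          have e1 : ((Uy y).card : ℝ) ≤ 2 * d := by exact_mod_cast hUc y
          calc 2 * T * ((Uy y).card : ℝ) ≤ 2 * T * (2 * d) :=
                mul_le_mul_of_nonneg_left e1 (by linarith)
            _ ≤ δ * d / 2 := by nlinarith
        calc _ ≤ Real.exp (2 * (2 / c) - δ * d) * Real.exp (δ * d / 2) :=
              mul_le_mul h1 h2 (Real.exp_pos _).le (Real.exp_pos _).le
          _ = Real.exp (4 / c - δ * d / 2) := by
              rw [← Real.exp_add]; congr 1; ring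
      refine (Finset.sum_le_card_nsmul _ _ _ (fun b _ => hterm b)).trans ?_
      rw [nsmul_eq_mul, hW]
      apply mul_le_mul_of_nonneg_right _ (Real.exp_pos _).le
      have e1 : (univ : Finset (ULift.{u} {b : Fin k // b ∈ Ga ∧ (Uy y).Nonempty})).card ≤ Ga.card := by
        rw [card_univ, Fintype.card_ulift, ← Fintype.card_coe Ga]
        exact Fintype.card_le_of_injective (fun b => ⟨b.1, b.2.1⟩) (by
          intro a b h
          exact Subtype.ext (by simpa using h))
      exact_mod_cast e1.trans hGa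
    · intro f hf b hb
      have hle : ((nb G y).filter (fun w => ∃ u ∈ U, R.Adj u w ∧ tt u (f u) w = b)).card ≤
          ((Uy y).filter (fun u => f u ∈ B y b u)).card := by
        have h1 : (nb G y).filter (fun w => ∃ u ∈ U, R.Adj u w ∧ tt u (f u) w = b) ⊆
            ((Uy y).filter (fun u => f u ∈ B y b u)).biUnion
              (fun u => (nb R u).filter (fun w => tt u (f u) w = b)) := by
          intro w hw
          rw [mem_filter] at hw
          obtain ⟨hw1, u, hu, hadj, htb⟩ := hw
          have hwR : w ∈ nb R u := by simpa [nb] using hadj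
          have hmem : w ∈ nb G y ∩ nb R u := mem_inter.2 ⟨hw1, hwR⟩
          rw [mem_biUnion]
          refine ⟨u, ?_, mem_filter.2 ⟨hwR, htb⟩⟩
          rw [mem_filter]
          refine ⟨mem_filter.2 ⟨hu, ⟨w, hmem⟩⟩, ?_⟩
          rw [hB]
          simp only [mem_filter, mem_univ, true_and]
          exact ⟨w, hmem, htb⟩
        refine (card_le_card h1).trans (card_biUnion_le.trans ?_)
        rw [card_eq_sum_ones]
        apply Finset.sum_le_sum
        intro u hu
        have huU : u ∈ U := (mem_filter.1 (mem_filter.1 hu).1).1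
        rw [card_le_one]
        intro w hw w' hw'
        rw [mem_filter] at hw hw'
        exact (htt u huU).2.1 (f u) w hw.1 w' hw'.1 (hw.2.trans hw'.2.symm)
      rcases (Uy y).eq_empty_or_nonempty with he | hne
      · rw [he] at hle
        simp only [filter_empty, card_empty, Nat.le_zero] at hle
        rw [hle]
        simp only [Nat.cast_zero]
        positivity
      · have h2 := hf ⟨⟨b, hb, hne⟩⟩
        simp only [not_lt] at h2
        exact le_trans (by exact_mod_cast hle) h2
  · intro u
    rw [Finset.sum_const, nsmul_eq_mul]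
    have hcnt : (univ.filter (fun y => u ∈ Uy y)).card ≤ d * d := by
      have h1 : univ.filter (fun y => u ∈ Uy y) ⊆ (nb G u).biUnion (fun w => nb G w) := by
        intro y hy
        simp only [mem_filter, mem_univ, true_and, hUy] at hy
        obtain ⟨hu, w, hw⟩ := hy
        rw [mem_inter] at hw
        have hwR : R.Adj u w := by simpa [nb] using hw.2
        have hwG : G.Adj u w := hRG hwR
        have hyw : G.Adj y w := by simpa [nb] using hw.1
        rw [mem_biUnion]
        exact ⟨w, by simpa [nb] using hwG, by simpa [nb] using hyw.symm⟩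
      refine (card_le_card h1).trans ((card_biUnion_le_card_mul _ _ d (fun w _ => hdeg w)).trans ?_)
      exact Nat.mul_le_mul_right d (hdeg u)
    have hcnt' : ((univ.filter (fun y => u ∈ Uy y)).card : ℝ) ≤ d * d := by exact_mod_cast hcnt
    have hW0 : 0 ≤ W := by rw [hW]; positivity
    refine (mul_le_mul_of_nonneg_right hcnt' hW0).trans ?_
    rw [hW, sub_eq_add_neg, Real.exp_add, Real.exp_neg]
    have hx : (0 : ℝ) ≤ δ * d / 2 := by positivity
    have hexp : (δ * d / 2) ^ 4 / 24 ≤ Real.exp (δ * d / 2) := by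
      have := Real.pow_div_factorial_le_exp (δ * d / 2) hx 4
      norm_num [Nat.factorial] at this ⊢
      exact this
    have hpos : (0 : ℝ) < (δ * d / 2) ^ 4 / 24 := by positivity
    have hinv : (Real.exp (δ * d / 2))⁻¹ ≤ ((δ * d / 2) ^ 4 / 24)⁻¹ :=
      inv_anti₀ hpos hexp
    have hd0 : (0 : ℝ) < d := by linarith
    calc (d : ℝ) * d * (d * (Real.exp (4 / c) * (Real.exp (δ * d / 2))⁻¹))
        ≤ (d : ℝ) * d * (d * (Real.exp (4 / c) * ((δ * d / 2) ^ 4 / 24)⁻¹)) := by
          gcongr
      _ = 384 * Real.exp (4 / c) / (δ ^ 4 * d) := by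
          field_simp
          ring
      _ ≤ T := by
          rw [div_le_iff₀ (by positivity)]
          rw [hK, div_le_iff₀ (by positivity)] at hdK
          linarith

theorem stmt_UCOL : Stmt_UCOL.{u} := fun c δ hc hδ => stmt_UCOL' c δ hc hδ

end Pool.Agent.Work.MP_db9399_exp.helper59
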