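import Pool.Agent.Work.MP_db9399_exp.Interface

/-!
# Block HALLX (owner helper59): perfect matchings with exceptional vertices
-/

set_option autoImplicit false

namespace Pool.Agent.Work.MP_db9399_exp.helper59

open Finset Classical
open Pool.Agent.Work.MP_db9399_exp
open Pool.Agent.Work.MP_db9399_all (nb)
open Pool.Agent.Work.MP_db9399_qr (PMat)

universe u

namespace HALLXAux

variable {V : Type u} [Fintype V]

/-- expansion of the ordinary part -/
theorem ord (G : SimpleGraph V) (q g : ℝ) (C D P0 Q0 : Finset V) (Rl : V → V → Prop)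
    (A B : Finset V) (hq : 0 < q) (hFI : FI G q g C D) (hP : P0 ⊆ C) (hQ : Q0 ⊆ D)
    (hx0 : ∀ x ∈ P0,
      (((nb G x ∩ D).filter (fun y => ¬ (y ∈ Q0 ∧ Rl x y))).card : ℝ) ≤ g / 2 * q)
    (hA : A ⊆ P0) (hAB : ∀ x ∈ A, ∀ y ∈ Q0, Rl x y → y ∈ B) (hc : 2 * A.card ≤ C.card + 2) :
    (1 + g) * A.card ≤ ((B ∩ Q0).card : ℝ) := by
  have h1 := hFI A (B ∩ Q0) (hA.trans hP) (inter_subset_right.trans hQ) hc
  have h2 : (∑ a ∈ A, ((nb G a ∩ (D \ (B ∩ Q0))).card : ℝ)) ≤ A.card • (g / 2 * q) := by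
    apply Finset.sum_le_card_nsmul
    intro a ha
    refine le_trans ?_ (hx0 a (hA ha))
    have : nb G a ∩ (D \ (B ∩ Q0)) ⊆ (nb G a ∩ D).filter (fun y => ¬ (y ∈ Q0 ∧ Rl a y)) := by
      intro y hy
      rw [mem_inter, mem_sdiff] at hy
      rw [mem_filter, mem_inter]
      refine ⟨⟨hy.1, hy.2.1⟩, ?_⟩
      rintro ⟨hyQ, hr⟩
      exact hy.2.2 (mem_inter.2 ⟨hAB a ha y hyQ hr, hyQ⟩)
    exact_mod_cast card_le_card this
  rw [nsmul_eq_mul] at h2
  have h3 : q * ((1 + g) * A.card) ≤ q * ((B ∩ Q0).card : ℝ) := by nlinarith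
  exact le_of_mul_le_mul_left h3 hq

omit [Fintype V] in
/-- the exceptional part by double counting -/
theorem exc (g z : ℝ) (P1 Q0 : Finset V) (Rl : V → V → Prop)
    (A B : Finset V) (hz : 0 < z)
    (hx1 : ∀ x ∈ P1, z ≤ ((Q0.filter (fun y => Rl x y)).card : ℝ))
    (hy : ∀ y ∈ Q0, ((P1.filter (fun x => Rl x y)).card : ℝ) ≤ g / 2 * z)
    (hA : A ⊆ P1) (hAB : ∀ x ∈ A, ∀ y ∈ Q0, Rl x y → y ∈ B) :
    (A.card : ℝ) ≤ g / 2 * ((B ∩ Q0).card : ℝ) := by
  have h1 : A.card • z ≤ ∑ x ∈ A, (((B ∩ Q0).filter (fun y => Rl x y)).card : ℝ) := by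
    apply Finset.card_nsmul_le_sum
    intro x hx
    refine (hx1 x (hA hx)).trans ?_
    have : Q0.filter (fun y => Rl x y) ⊆ (B ∩ Q0).filter (fun y => Rl x y) := by
      intro y hy'
      rw [mem_filter] at hy' ⊢
      exact ⟨mem_inter.2 ⟨hAB x hx y hy'.1 hy'.2, hy'.1⟩, hy'.2⟩
    exact_mod_cast card_le_card this
  have h2 : (∑ x ∈ A, (((B ∩ Q0).filter (fun y => Rl x y)).card : ℝ)) =
      ∑ y ∈ B ∩ Q0, ((A.filter (fun x => Rl x y)).card : ℝ) := by
    have := Finset.sum_card_bipartiteAbove_eq_sum_card_bipartiteBelow (s := A) (t := B ∩ Q0)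
      (r := Rl)
    simp only [bipartiteAbove, bipartiteBelow] at this
    exact_mod_cast this
  have h3 : (∑ y ∈ B ∩ Q0, ((A.filter (fun x => Rl x y)).card : ℝ)) ≤
      (B ∩ Q0).card • (g / 2 * z) := by
    apply Finset.sum_le_card_nsmul
    intro y hy'
    refine le_trans ?_ (hy y (mem_inter.1 hy').2)
    exact_mod_cast card_le_card (filter_subset_filter _ hA)
  rw [nsmul_eq_mul] at h1 h3
  have h4 : z * (A.card : ℝ) ≤ z * (g / 2 * ((B ∩ Q0).card : ℝ)) := by linarith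
  exact le_of_mul_le_mul_left h4 hz

/-- no violating set with a small ordinary part -/
theorem half (G : SimpleGraph V) (q g z : ℝ) (C D P0 P1 Q0 : Finset V) (Rl : V → V → Prop)
    (A B : Finset V) (hq : 0 < q) (hg : 0 < g) (hg1 : g ≤ 1) (hz : 0 < z)
    (hFI : FI G q g C D) (hP : P0 ⊆ C) (hQ : Q0 ⊆ D)
    (hx0 : ∀ x ∈ P0,
      (((nb G x ∩ D).filter (fun y => ¬ (y ∈ Q0 ∧ Rl x y))).card : ℝ) ≤ g / 2 * q)
    (hx1 : ∀ x ∈ P1, z ≤ ((Q0.filter (fun y => Rl x y)).card : ℝ))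
    (hy : ∀ y ∈ Q0, ((P1.filter (fun x => Rl x y)).card : ℝ) ≤ g / 2 * z)
    (hA : A ⊆ P0 ∪ P1) (hAB : ∀ x ∈ A, ∀ y ∈ Q0, Rl x y → y ∈ B)
    (hc : 2 * (A ∩ P0).card ≤ C.card + 2) : A.card ≤ B.card := by
  have h1 := ord G q g C D P0 Q0 Rl (A ∩ P0) B hq hFI hP hQ hx0 inter_subset_right
    (fun x hx => hAB x (mem_inter.1 hx).1) hc
  have h2 := exc g z P1 Q0 Rl (A ∩ P1) B hz hx1 hy inter_subset_right
    (fun x hx => hAB x (mem_inter.1 hx).1)
  have h3 : A.card ≤ (A ∩ P0).card + (A ∩ P1).card := by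
    refine (card_le_card ?_).trans (card_union_le _ _)
    intro x hx
    rcases mem_union.1 (hA hx) with h | h
    · exact mem_union_left _ (mem_inter.2 ⟨hx, h⟩)
    · exact mem_union_right _ (mem_inter.2 ⟨hx, h⟩)
  have h4 : ((B ∩ Q0).card : ℝ) ≤ B.card := by exact_mod_cast card_le_card inter_subset_left
  have h3' : (A.card : ℝ) ≤ (A ∩ P0).card + (A ∩ P1).card := by exact_mod_cast h3
  have hb : (0 : ℝ) ≤ ((B ∩ Q0).card : ℝ) := by positivity
  have ha : (0 : ℝ) ≤ ((A ∩ P0).card : ℝ) := by positivity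
  have h5 : (1 + g) * (A.card : ℝ) ≤ (1 + g) * (B ∩ Q0).card := by
    have e1 : (1 + g) * ((A ∩ P1).card : ℝ) ≤ (1 + g) * (g / 2 * ((B ∩ Q0).card : ℝ)) :=
      mul_le_mul_of_nonneg_left h2 (by linarith)
    have e2 : (1 + g) * (g / 2) ≤ g := by nlinarith
    have e3 := mul_le_mul_of_nonneg_right e2 hb
    nlinarith
  have h6 : (A.card : ℝ) ≤ (B ∩ Q0).card := le_of_mul_le_mul_left h5 (by linarith)
  exact_mod_cast h6.trans h4

end HALLXAux

open HALLXAux in
theorem stmt_HALLX : Stmt_HALLX.{u} := by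
  intro V _ G q g z C D P0 P1 Q0 Q1 Rl hq hg hg1 hz hCD hDC hDc hCc hPC hQD hPd hQd hcard
    hlx hly hx1 hy0 hy1 hx0
  set X : Finset V := P0 ∪ P1 with hXdef
  set Y : Finset V := Q0 ∪ Q1 with hYdef
  -- Hall's condition
  have hall : ∀ A : Finset {x // x ∈ X},
      A.card ≤ (A.biUnion (fun x => Y.filter (fun y => Rl x.1 y))).card := by
    intro A0
    by_contra hcon
    rw [not_le] at hcon
    set A : Finset V := A0.map ⟨Subtype.val, Subtype.val_injective⟩ with hAdef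
    set B : Finset V := A0.biUnion (fun x => Y.filter (fun y => Rl x.1 y)) with hBdef
    have hAc : A.card = A0.card := card_map _
    have hAX : A ⊆ X := by
      intro x hx
      rw [hAdef, mem_map] at hx
      obtain ⟨a, _, rfl⟩ := hx
      exact a.2
    have hBY : B ⊆ Y := by
      intro y hy
      rw [hBdef, mem_biUnion] at hy
      obtain ⟨a, _, ha⟩ := hy
      exact (mem_filter.1 ha).1
    have hAB : ∀ x ∈ A, ∀ y ∈ Y, Rl x y → y ∈ B := by
      intro x hx y hy hr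
      rw [hAdef, mem_map] at hx
      obtain ⟨a, ha, rfl⟩ := hx
      rw [hBdef, mem_biUnion]
      exact ⟨a, ha, mem_filter.2 ⟨hy, hr⟩⟩
    have hBA : B.card < A.card := by rw [hAc]; exact hcon
    have hcX : (X \ A).card + A.card = X.card := card_sdiff_add_card_eq_card hAX
    have hcY : (Y \ B).card + B.card = Y.card := card_sdiff_add_card_eq_card hBY
    have hlt : (X \ A).card < (Y \ B).card := by omega
    have hABQ : ∀ x ∈ A, ∀ y ∈ Q0, Rl x y → y ∈ B :=
      fun x hx y hy hr => hAB x hx y (mem_union_left _ hy) hr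
    rcases le_or_gt (2 * (A ∩ P0).card) (C.card + 2) with hc1 | hc1
    · have := half G q g z C D P0 P1 Q0 Rl A B hq hg hg1 hz hCD hPC hQD hlx hx1 hy0 hAX hABQ hc1
      omega
    rcases le_or_gt (2 * ((Y \ B) ∩ Q0).card) (D.card + 2) with hc2 | hc2
    · have := half G q g z D C Q0 Q1 P0 (fun y x => Rl x y) (Y \ B) (X \ A) hq hg hg1 hz hDC hQD
        hPC hly hy1 hx0 sdiff_subset ?_ hc2
      · omega
      · intro y hy x hx hr
        rw [mem_sdiff] at hy ⊢
        exact ⟨mem_union_left _ hx, fun hxA => hy.2 (hAB x hxA y hy.1 hr)⟩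
    · obtain ⟨A', hA', hA'c⟩ := exists_subset_card_eq
        (show (C.card + 2) / 2 ≤ (A ∩ P0).card by omega)
      have h1 := ord G q g C D P0 Q0 Rl A' B hq hCD hPC hQD hlx (hA'.trans inter_subset_right)
        (fun x hx => hABQ x (mem_inter.1 (hA' hx)).1) (by omega)
      have h2 : (B ∩ Q0).card + ((Y \ B) ∩ Q0).card ≤ D.card := by
        rw [← card_union_of_disjoint]
        · apply card_le_card
          intro y hy
          rcases mem_union.1 hy with h | h
          · exact hQD (mem_inter.1 h).2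
          · exact hQD (mem_inter.1 h).2
        · rw [disjoint_left]
          intro y hy hy'
          exact (mem_sdiff.1 (mem_inter.1 hy').1).2 (mem_inter.1 hy).1
      have h2' : ((B ∩ Q0).card : ℝ) + ((Y \ B) ∩ Q0).card ≤ D.card := by exact_mod_cast h2
      have h3 : (C.card : ℝ) + 1 ≤ 2 * A'.card := by
        have : C.card + 1 ≤ 2 * A'.card := by omega
        exact_mod_cast this
      have h4 : (D.card : ℝ) + 2 < 2 * ((Y \ B) ∩ Q0).card := by exact_mod_cast hc2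
      have hC0 : (0 : ℝ) ≤ C.card := by positivity
      have h5 : (1 + g) * ((C.card : ℝ) + 1) ≤ (1 + g) * (2 * A'.card) :=
        mul_le_mul_of_nonneg_left h3 (by linarith)
      have h6 : 0 ≤ g * (C.card : ℝ) := by positivity
      nlinarith
  obtain ⟨f, hfinj, hf⟩ := (Finset.all_card_le_biUnion_card_iff_exists_injective
    (fun x : {x // x ∈ X} => Y.filter (fun y => Rl x.1 y))).1 hall
  have hfY : ∀ x, f x ∈ Y := fun x => (mem_filter.1 (hf x)).1
  have hfR : ∀ x, Rl x.1 (f x) := fun x => (mem_filter.1 (hf x)).2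
  -- surjectivity
  have himg : (univ : Finset {x // x ∈ X}).image f = Y := by
    apply eq_of_subset_of_card_le
    · intro y hy
      rw [mem_image] at hy
      obtain ⟨x, _, rfl⟩ := hy
      exact hfY x
    · rw [card_image_of_injective _ hfinj]
      simp [hcard]
  refine ⟨(univ : Finset {x // x ∈ X}).image (fun x => (x.1, f x)), ?_, ?_, ?_, ?_⟩
  · intro e he
    rw [mem_image] at he
    obtain ⟨x, _, rfl⟩ := he
    exact hfR x
  · intro e he
    rw [mem_image] at he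
    obtain ⟨x, _, rfl⟩ := he
    exact ⟨x.2, hfY x⟩
  · intro x hx
    refine ⟨(x, f ⟨x, hx⟩), ⟨mem_image.2 ⟨⟨x, hx⟩, mem_univ _, rfl⟩, rfl⟩, ?_⟩
    rintro e ⟨he, hex⟩
    rw [mem_image] at he
    obtain ⟨z, _, rfl⟩ := he
    have : z = ⟨x, hx⟩ := Subtype.ext hex
    rw [this]
  · intro y hy
    rw [← himg, mem_image] at hy
    obtain ⟨x, _, rfl⟩ := hy
    refine ⟨(x.1, f x), ⟨mem_image.2 ⟨x, mem_univ _, rfl⟩, rfl⟩, ?_⟩
    rintro e ⟨he, hex⟩
    rw [mem_image] at he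
    obtain ⟨z, _, rfl⟩ := he
    have : z = x := hfinj hex
    rw [this]

end Pool.Agent.Work.MP_db9399_exp.helper59
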