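import Pool.Agent.Work.MP_db9399_exp.Interface
import Pool.Agent.Work.MP_db9399_exp_helper38.Base
import Pool.Agent.Work.MP_db9399_exp_helper59.UCOL

/-!
# Block UCX (owner helper59): the inside edges at `U`
-/

set_option autoImplicit false

namespace Pool.Agent.Work.MP_db9399_exp.helper59

open Finset Classical
open Pool.Agent.Work.MP_db9399_exp
open Pool.Agent.Work.MP_db9399_all (nb)
open Pool.Agent.Work.MP_db9399_qr (cov PEC ins sd PMat W0 imb ZQ Good)

universe u

namespace UCXAux

/-- equitable splitting of a finite set -/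
theorem equi {V : Type u} (S : Finset V) (M : ℕ) [NeZero M] :
    ∃ p : V → ZMod M, ∀ j, S.card / M ≤ (S.filter (fun w => p w = j)).card ∧
      (S.filter (fun w => p w = j)).card ≤ S.card / M + 1 := by
  set e := S.equivFin with he
  set p : V → ZMod M := fun w => if h : w ∈ S then (((e ⟨w, h⟩ : Fin S.card) : ℕ) : ZMod M) else 0
    with hp
  refine ⟨p, fun j => ?_⟩
  have h1 : (S.filter (fun w => p w = j)).card =
      ((range S.card).filter (fun i => i ≡ j.val [MOD M])).card := by
    apply Finset.card_bij (fun w hw => ((e ⟨w, (mem_filter.1 hw).1⟩ : Fin S.card) : ℕ))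
    · intro w hw
      have hwS := (mem_filter.1 hw).1
      have hwj := (mem_filter.1 hw).2
      rw [mem_filter, mem_range]
      refine ⟨(e ⟨w, hwS⟩).2, ?_⟩
      rw [hp] at hwj
      simp only [hwS, dif_pos] at hwj
      rw [← ZMod.natCast_eq_natCast_iff, hwj, ZMod.natCast_zmod_val]
    · intro w hw w' hw' h
      have h2 : e ⟨w, (mem_filter.1 hw).1⟩ = e ⟨w', (mem_filter.1 hw').1⟩ := Fin.ext h
      exact Subtype.ext_iff.1 (e.injective h2)
    · intro i hi
      rw [mem_filter, mem_range] at hi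
      refine ⟨(e.symm ⟨i, hi.1⟩).1, ?_, ?_⟩
      · rw [mem_filter]
        refine ⟨(e.symm ⟨i, hi.1⟩).2, ?_⟩
        rw [hp]
        simp only [(e.symm ⟨i, hi.1⟩).2, dif_pos]
        have : e ⟨(e.symm ⟨i, hi.1⟩).1, (e.symm ⟨i, hi.1⟩).2⟩ = ⟨i, hi.1⟩ := by
          simp
        rw [this]
        have h3 := (ZMod.natCast_eq_natCast_iff i j.val M).2 hi.2
        rw [ZMod.natCast_zmod_val] at h3
        exact h3
      · simp
  have h2 : ((range S.card).filter (fun i => i ≡ j.val [MOD M])).card =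
      Nat.count (fun i => i ≡ j.val [MOD M]) S.card := by
    rw [Nat.count_eq_card_filter_range]
  rw [h1, h2, Nat.count_modEq_card _ (Nat.pos_of_ne_zero (NeZero.ne M))]
  split_ifs <;> omega

variable {m r : ℕ} {V : Type u} [Fintype V] {k d : ℕ} {G : SimpleGraph V} {U : Finset V}
  {F : V → Finset (Fin k)} (X : Ctx m r k d G U F)

/-- the number of the colours of a group -/
theorem grp_card (i j : ZMod (2 * m + 1)) :
    (X.Ga.filter (fun b => X.gi b = i ∧ X.gj b = j)).card = (2 * r + 1) * X.u := by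
  apply le_antisymm
  · have h : (X.Ga.filter (fun b => X.gi b = i ∧ X.gj b = j)).card ≤
        ((univ : Finset (ZMod (2 * r + 1))) ×ˢ range X.u).card := by
      apply Finset.card_le_card_of_injOn (fun b => (X.gs b, X.gk b))
      · intro b hb
        rw [mem_coe, mem_filter] at hb
        rw [mem_coe, mem_product]
        exact ⟨mem_univ _, mem_range.2 (X.glt b hb.1)⟩
      · intro b hb b' hb' h
        rw [mem_coe, mem_filter] at hb hb'
        simp only [Prod.mk.injEq] at h
        exact X.ginj b hb.1 b' hb'.1 (hb.2.1.trans hb'.2.1.symm) (hb.2.2.trans hb'.2.2.symm) h.1 h.2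
    rwa [card_product, card_univ, ZMod.card, card_range] at h
  · have hex : ∀ (s : ZMod (2 * r + 1)) (l : ℕ), ∃ b, l < X.u → b ∈ X.Ga ∧ X.gi b = i ∧
        X.gj b = j ∧ X.gs b = s ∧ X.gk b = l := by
      intro s l
      by_cases hl : l < X.u
      · obtain ⟨b, hb⟩ := X.gex i j s l hl
        exact ⟨b, fun _ => hb⟩
      · have hk : 0 < k := by have := X.kd; omega
        exact ⟨⟨0, hk⟩, fun h => absurd h hl⟩
    choose β hβ using hex
    have h : ((univ : Finset (ZMod (2 * r + 1))) ×ˢ range X.u).card ≤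
        (X.Ga.filter (fun b => X.gi b = i ∧ X.gj b = j)).card := by
      apply Finset.card_le_card_of_injOn (fun e => β e.1 e.2)
      · intro e he
        rw [mem_coe, mem_product, mem_range] at he
        have := hβ e.1 e.2 he.2
        rw [mem_coe, mem_filter]
        exact ⟨this.1, this.2.1, this.2.2.1⟩
      · intro e he e' he' h
        rw [mem_coe, mem_product, mem_range] at he he'
        have h1 := hβ e.1 e.2 he.2
        have h2 := hβ e'.1 e'.2 he'.2
        simp only at h
        rw [h] at h1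
        exact Prod.ext (h1.2.2.2.1.symm.trans h2.2.2.2.1) (h1.2.2.2.2.symm.trans h2.2.2.2.2)
    rwa [card_product, card_univ, ZMod.card, card_range] at h

/-- the number of the colours of a group in a palette -/
theorem pal_card (i j : ZMod (2 * m + 1)) (s : ZMod (2 * r + 1)) :
    (X.Ga.filter (fun b => (X.gi b = i ∧ X.gj b = j) ∧ b ∈ X.Pal s)).card ≤ (2 * r + 1) * X.w := by
  have h : (X.Ga.filter (fun b => (X.gi b = i ∧ X.gj b = j) ∧ b ∈ X.Pal s)).card ≤
      ((univ : Finset (ZMod (2 * r + 1))) ×ˢ ((range X.u).filter (fun l => X.hm l = some s))).card := by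
    apply Finset.card_le_card_of_injOn (fun b => (X.gs b, X.gk b))
    · intro b hb
      rw [mem_coe, mem_filter] at hb
      rw [mem_coe, mem_product, mem_filter]
      exact ⟨mem_univ _, mem_range.2 (X.glt b hb.1), (X.Palh b hb.1 s).1 hb.2.2⟩
    · intro b hb b' hb' h
      rw [mem_coe, mem_filter] at hb hb'
      simp only [Prod.mk.injEq] at h
      exact X.ginj b hb.1 b' hb'.1 (hb.2.1.1.trans hb'.2.1.1.symm)
        (hb.2.1.2.trans hb'.2.1.2.symm) h.1 h.2
  rw [card_product, card_univ, ZMod.card] at h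
  exact h.trans (Nat.mul_le_mul_left _ (X.hmw s))

/-- the number of all colours in `Ga` -/
theorem Ga_card : X.Ga.card ≤ (2 * m + 1) ^ 2 * ((2 * r + 1) * X.u) := by
  have h := Finset.card_eq_sum_card_fiberwise (f := fun b => (X.gi b, X.gj b)) (s := X.Ga)
    (t := (univ : Finset (ZMod (2 * m + 1) × ZMod (2 * m + 1)))) (fun b _ => mem_coe.2 (mem_univ _))
  rw [h]
  have h2 : ∀ x : ZMod (2 * m + 1) × ZMod (2 * m + 1),
      (X.Ga.filter (fun b => (X.gi b, X.gj b) = x)).card = (2 * r + 1) * X.u := by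
    intro x
    rw [← grp_card X x.1 x.2]
    congr 1
    apply filter_congr
    intro b _
    exact Prod.ext_iff
  rw [Finset.sum_congr rfl (fun x _ => h2 x), sum_const, card_univ, Fintype.card_prod, ZMod.card,
    smul_eq_mul]
  exact le_of_eq (by ring)

/-- the number of the neighbours of `u` in a cell -/
theorem deg_cell (v : V) (hv : v ∈ U) (a : ZMod (2 * m + 1)) :
    |((((nb X.R v).filter (fun w => X.cell w = a)).card : ℕ) : ℝ) - (d : ℝ) / (2 * (2 * m + 1))| ≤
      (2 * r + 1) * (X.dl * d) := by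
  have h1 : ((nb X.R v).filter (fun w => X.cell w = a)).card =
      ∑ s : ZMod (2 * r + 1), (nb G v ∩ cls U (fun v => (X.side v, X.cell v, X.sub v))
        {((X.side v, a, s) : Atom m r)}).card := by
    have h := Finset.card_eq_sum_card_fiberwise (f := fun w => X.sub w)
      (s := (nb X.R v).filter (fun w => X.cell w = a))
      (t := (univ : Finset (ZMod (2 * r + 1)))) (fun b _ => mem_coe.2 (mem_univ _))
    rw [h]
    apply Finset.sum_congr rfl
    intro s _
    congr 1
    ext w
    simp only [mem_filter, mem_inter, cls, mem_singleton, nb, mem_univ, true_and, Ctx.R,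
      Pool.Agent.Work.MP_db9399_qr.ins, Prod.mk.injEq]
    constructor
    · rintro ⟨⟨⟨h1, h2⟩, h3⟩, h4⟩
      exact ⟨h1, fun hw => X.UU v hv w hw h1, h2.symm, h3, h4⟩
    · rintro ⟨h1, _, h2, h3, h4⟩
      exact ⟨⟨⟨h1, h2.symm⟩, h3⟩, h4⟩
  rw [h1]
  push_cast
  have h2 : (d : ℝ) / (2 * (2 * m + 1)) =
      ∑ _s : ZMod (2 * r + 1), (d : ℝ) / (2 * (2 * m + 1) * (2 * r + 1)) := by
    rw [sum_const, card_univ, ZMod.card, nsmul_eq_mul]
    push_cast
    have e1 : (2 * (m : ℝ) + 1) ≠ 0 := by positivity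
    have e2 : (2 * (r : ℝ) + 1) ≠ 0 := by positivity
    field_simp
  rw [h2, ← Finset.sum_sub_distrib]
  refine (Finset.abs_sum_le_sum_abs _ _).trans ?_
  refine (Finset.sum_le_card_nsmul _ _ (X.dl * d) (fun s _ => X.degat v (X.side v, a, s))).trans ?_
  rw [card_univ, ZMod.card, nsmul_eq_mul]
  push_cast
  exact le_rfl

/-- numerical inequalities -/
theorem nums : (2 * (r : ℝ) + 1) * (X.dl * d) ≤ d / (2 * (m : ℝ) + 1) ^ 12 ∧
    (2 * (m : ℝ) + 1) ^ 20 ≤ d ∧
    (2 * (r : ℝ) + 1) * X.w ≤ d / (2 * (m : ℝ) + 1) ^ 7 ∧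
    (2 * (r : ℝ) + 1) * X.u ≤ d / (2 * (2 * (m : ℝ) + 1) * (2 * m)) ∧
    d / (2 * (2 * (m : ℝ) + 1) * (2 * m)) - d / (2 * (m : ℝ) + 1) ^ 7 ≤ (2 * (r : ℝ) + 1) * X.u := by
  have hM := helper38.num_M X
  have hR := X.rbig
  have hd := helper38.num_d X
  have hdl := X.dlsm
  have hdl0 := X.dl0
  have hw := X.wub
  have hu1 := X.ulo
  have hu2 := X.uhi
  have hg0 := X.g0
  have hg1 := X.g1
  have hm := helper38.num_m X
  have hm' : (1 : ℝ) ≤ m := by exact_mod_cast hm
  have hd0 : (0 : ℝ) ≤ d := Nat.cast_nonneg d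
  set M : ℝ := 2 * (m : ℝ) + 1 with hMdef
  set R : ℝ := 2 * (r : ℝ) + 1 with hRdef
  have h1 : (1 : ℝ) ≤ M := le_trans (by norm_num) hM
  have hM7 : (1 : ℝ) ≤ M ^ 7 := one_le_pow₀ h1
  have hM0 : (0 : ℝ) < M := by linarith
  have h2 : (1 : ℝ) ≤ R := by linarith
  have hg2 : X.g ^ 2 ≤ 1 := by nlinarith
  refine ⟨?_, ?_, ?_, ?_, ?_⟩
  · have e1 : R * X.dl * M ^ 12 ≤ 1 := by
      calc R * X.dl * M ^ 12 ≤ R * X.dl * M ^ 12 * (10 ^ 6 * R) := by
            apply le_mul_of_one_le_right (by positivity)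
            nlinarith
        _ = X.dl * (10 ^ 6 * M ^ 12 * R ^ 2) := by ring
        _ ≤ X.g ^ 2 := hdl
        _ ≤ 1 := hg2
    rw [le_div_iff₀ (by positivity)]
    calc R * (X.dl * d) * M ^ 12 = R * X.dl * M ^ 12 * d := by ring
      _ ≤ 1 * (d : ℝ) := mul_le_mul_of_nonneg_right e1 hd0
      _ = (d : ℝ) := one_mul _
  · refine le_trans ?_ hd
    have e1 : (1 : ℝ) ≤ R ^ 3 := one_le_pow₀ h2
    have e2 : (0 : ℝ) ≤ M ^ 20 := by positivity
    nlinarith
  · rw [le_div_iff₀ (by positivity)]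
    have e1 : R * X.w * M ^ 7 * (100 * M ^ 2) ≤ 3 / 2 * d := by
      calc R * X.w * M ^ 7 * (100 * M ^ 2) = M ^ 2 * R * X.w * (100 * M ^ 7) := by ring
        _ ≤ M ^ 2 * R * X.w * R := mul_le_mul_of_nonneg_left hR (by positivity)
        _ = M ^ 2 * R ^ 2 * X.w := by ring
        _ ≤ 3 / 2 * d := hw
    have e2 : (0 : ℝ) ≤ R * X.w * M ^ 7 := by positivity
    have e3 : (1 : ℝ) ≤ M ^ 2 := one_le_pow₀ h1
    nlinarith
  · rw [le_div_iff₀ (by positivity)]
    have e1 : (1 - 1 / (2 * M ^ 7)) * (d : ℝ) ≤ d := by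
      have : 0 ≤ 1 / (2 * M ^ 7) := by positivity
      nlinarith
    calc R * X.u * (2 * M * (2 * m)) = 2 * M * R * (2 * m * X.u) := by ring
      _ ≤ _ := hu2
      _ ≤ _ := e1
  · have e0 : (0 : ℝ) < 2 * M * (2 * m) := by positivity
    have e1 : (1 - 1 / M ^ 7) * (d : ℝ) / (2 * M * (2 * m)) ≤ R * X.u := by
      rw [div_le_iff₀ e0]
      calc _ ≤ _ := hu1
        _ = _ := by ring
    refine le_trans ?_ e1
    have e2 : (1 - 1 / M ^ 7) * (d : ℝ) / (2 * M * (2 * m)) =
        d / (2 * M * (2 * m)) - d / M ^ 7 / (2 * M * (2 * m)) := by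
      field_simp
    rw [e2]
    have e3 : d / M ^ 7 / (2 * M * (2 * m)) ≤ d / M ^ 7 := by
      apply div_le_self (by positivity)
      nlinarith
    linarith

/-- the numbers needed in the main proof, `M` the number of cells -/
theorem nums2 : ∃ D : ℕ,
    (∀ n s : ℝ, |n - (d : ℝ) / (2 * (2 * m + 1))| ≤ (2 * r + 1) * (X.dl * d) →
      s ≤ n / (2 * m + 1) + 1 → s ≤ D) ∧
    (D : ℝ) + 2 + (2 * (r : ℝ) + 1) * X.w ≤ (2 * (r : ℝ) + 1) * X.u ∧
    1 / (2 * (2 * (m : ℝ) + 1) ^ 2) * d ≤ D ∧ D ≤ d ∧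
    ((2 * (m : ℝ) + 1) * ((2 * (r : ℝ) + 1) * X.u -
      (((d : ℝ) / (2 * (2 * m + 1)) - (2 * r + 1) * (X.dl * d)) / (2 * m + 1) - 1)) ≤
      d / (2 * (m : ℝ) + 1) ^ 2) := by
  obtain ⟨n1, n2, n3, n4, n5⟩ := nums X
  have hM := helper38.num_M X
  have hm := helper38.num_m X
  have hm' : (1 : ℝ) ≤ m := by exact_mod_cast hm
  have hd0 : (0 : ℝ) ≤ d := Nat.cast_nonneg d
  have hm2 : 2 * (m : ℝ) = (2 * (m : ℝ) + 1) - 1 := by ring
  rw [hm2] at n4 n5
  simp only [sub_add_cancel] at n4 n5
  set M : ℝ := 2 * (m : ℝ) + 1 with hMdef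
  set ru : ℝ := (2 * (r : ℝ) + 1) * X.u with hru
  set rw' : ℝ := (2 * (r : ℝ) + 1) * X.w with hrw
  set e : ℝ := (2 * (r : ℝ) + 1) * (X.dl * d) with he
  have h1 : (1 : ℝ) ≤ M := le_trans (by norm_num) hM
  have hM0 : (0 : ℝ) < M := by linarith
  have hM1 : (0 : ℝ) < M - 1 := by linarith [show (10 : ℝ) ^ 9 ≥ 2 by norm_num]
  have hd1 : (0 : ℝ) < d := lt_of_lt_of_le (by positivity) n2
  -- auxiliary quantities
  set t : ℝ := (d : ℝ) / (4 * M ^ 3) with ht
  have ht0 : 0 < t := by rw [ht]; positivity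
  have ht8 : 8 ≤ t := by
    rw [ht, le_div_iff₀ (by positivity)]
    refine le_trans ?_ n2
    have : M ^ 20 = M ^ 3 * M ^ 17 := by ring
    rw [this]
    have h17 : (32 : ℝ) ≤ M ^ 17 := by
      calc (32 : ℝ) ≤ M := le_trans (by norm_num) hM
        _ ≤ M ^ 17 := le_self_pow₀ h1 (by norm_num)
    have : (0 : ℝ) ≤ M ^ 3 := by positivity
    nlinarith
  have hp : ∀ a b : ℕ, a ≤ b → (d : ℝ) / M ^ b ≤ d / M ^ a := by
    intro a b hab
    apply div_le_div_of_nonneg_left hd0 (by positivity)
    exact pow_le_pow_right₀ h1 hab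
  have h7 : (d : ℝ) / M ^ 7 ≤ t / 10 := by
    rw [ht, div_div, div_le_div_iff₀ (by positivity) (by positivity)]
    have e1 : (40 : ℝ) ≤ M ^ 4 := by
      calc (40 : ℝ) ≤ M := le_trans (by norm_num) hM
        _ ≤ M ^ 4 := le_self_pow₀ h1 (by norm_num)
    have e2 : (d : ℝ) * (4 * M ^ 3 * 10) = d * M ^ 3 * 40 := by ring
    have e3 : (d : ℝ) * M ^ 7 = d * M ^ 3 * M ^ 4 := by ring
    rw [e2, e3]
    exact mul_le_mul_of_nonneg_left e1 (by positivity)
  have h12 : e ≤ t / 10 := n1.trans ((hp 7 12 (by norm_num)).trans h7)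
  have heM : e / M ≤ t / 10 := by
    have e0 : 0 ≤ e := by
      rw [he]
      have := X.dl0
      positivity
    exact (div_le_self e0 h1).trans h12
  have hx : (d : ℝ) / (2 * M) / M = d / (2 * M ^ 2) := by
    field_simp
  -- y = d / (2 M (M-1))
  have hy1 : (d : ℝ) / (2 * M ^ 2) + 2 * t ≤ d / (2 * M * (M - 1)) := by
    rw [ht]
    have : (d : ℝ) / (2 * M ^ 2) + 2 * (d / (4 * M ^ 3)) = d * (M + 1) / (2 * M ^ 3) := by
      field_simp
      ring
    rw [this, div_le_div_iff₀ (by positivity) (by positivity)]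
    have : (d : ℝ) * (2 * M ^ 3) - d * (M + 1) * (2 * M * (M - 1)) = 2 * M * d := by ring
    have h0 : 0 ≤ 2 * M * (d : ℝ) := by positivity
    linarith
  have hy2 : (d : ℝ) / (2 * M * (M - 1)) ≤ 3 / 2 * (d / (2 * M ^ 2)) := by
    rw [mul_div_assoc', div_le_div_iff₀ (by positivity) (by positivity)]
    have e1 : (3 : ℝ) ≤ M := le_trans (by norm_num) hM
    have e2 : 3 / 2 * (d : ℝ) * (2 * M * (M - 1)) - d * (2 * M ^ 2) = d * M * (M - 3) := by ring
    have e3 : 0 ≤ (d : ℝ) * M * (M - 3) := by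
      apply mul_nonneg (by positivity)
      linarith
    linarith
  set x : ℝ := d / (2 * M ^ 2) + t with hxdef
  have hx0 : 0 ≤ x := by rw [hxdef]; positivity
  refine ⟨⌊x⌋₊, ?_, ?_, ?_, ?_, ?_⟩
  · intro n s hn hs
    have f1 : n ≤ d / (2 * M) + e := by linarith [(abs_le.1 hn).2]
    have f2 : n / M ≤ d / (2 * M ^ 2) + e / M := by
      rw [← hx, ← add_div]
      exact div_le_div_of_nonneg_right f1 hM0.le
    have f3 : x - 1 < (⌊x⌋₊ : ℝ) := Nat.sub_one_lt_floor x
    have : s ≤ x - 1 := by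
      rw [hxdef]
      linarith
    linarith
  · have f1 : (⌊x⌋₊ : ℝ) ≤ x := Nat.floor_le hx0
    have f2 : rw' ≤ t / 10 := n3.trans h7
    linarith
  · have f3 : x - 1 < (⌊x⌋₊ : ℝ) := Nat.sub_one_lt_floor x
    have f4 : 1 / (2 * M ^ 2) * (d : ℝ) = d / (2 * M ^ 2) := by ring
    rw [f4]
    linarith
  · have f1 : (⌊x⌋₊ : ℝ) ≤ x := Nat.floor_le hx0
    have f2 : x ≤ d := by
      have g1 : (d : ℝ) / (2 * M ^ 2) ≤ d / 2 := by
        apply div_le_div_of_nonneg_left hd0 (by norm_num)
        have : (1 : ℝ) ≤ M ^ 2 := one_le_pow₀ h1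
        linarith
      have g2 : t ≤ d / 2 := by
        rw [ht]
        apply div_le_div_of_nonneg_left hd0 (by norm_num)
        have : (1 : ℝ) ≤ M ^ 3 := one_le_pow₀ h1
        linarith
      linarith
    exact_mod_cast f1.trans f2
  · have g1 : M * (ru - ((d / (2 * M) - e) / M - 1)) = M * ru - d / (2 * M) + e + M := by
      field_simp
      ring
    rw [g1]
    have g2 : M * ru ≤ d / (2 * (M - 1)) := by
      have := mul_le_mul_of_nonneg_left n4 hM0.le
      refine this.trans (le_of_eq ?_)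
      field_simp
    have g3 : (d : ℝ) / (2 * (M - 1)) - d / (2 * M) = d / (2 * M * (M - 1)) := by
      field_simp
      ring
    have g4 : M ≤ t := by
      rw [ht, le_div_iff₀ (by positivity)]
      refine le_trans ?_ n2
      have e1 : M ^ 20 = M ^ 4 * M ^ 16 := by ring
      rw [e1]
      have h17 : (4 : ℝ) ≤ M ^ 16 := by
        calc (4 : ℝ) ≤ M := le_trans (by norm_num) hM
          _ ≤ M ^ 16 := le_self_pow₀ h1 (by norm_num)
      have e2 : M * (4 * M ^ 3) = M ^ 4 * 4 := by ring
      rw [e2]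
      exact mul_le_mul_of_nonneg_left h17 (by positivity)
    have g5 : 11 / 10 * t ≤ 1 / 2 * (d / (2 * M ^ 2)) := by
      rw [ht]
      have e1 : (11 : ℝ) / 10 * (d / (4 * M ^ 3)) = 11 * d / (40 * M ^ 3) := by ring_nf
      have e2 : (1 : ℝ) / 2 * (d / (2 * M ^ 2)) = d / (4 * M ^ 2) := by ring_nf
      rw [e1, e2, div_le_div_iff₀ (by positivity) (by positivity)]
      have e3 : (2 : ℝ) ≤ M := le_trans (by norm_num) hM
      have e4 : (d : ℝ) * (40 * M ^ 3) - 11 * d * (4 * M ^ 2) = d * M ^ 2 * (40 * M - 44) := by ring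
      have e5 : 0 ≤ (d : ℝ) * M ^ 2 * (40 * M - 44) := by
        apply mul_nonneg (by positivity)
        linarith
      linarith
    have g6 : (d : ℝ) / M ^ 2 = 2 * (d / (2 * M ^ 2)) := by
      field_simp
    rw [g6]
    linarith

end UCXAux

open UCXAux in
theorem stmt_UCX : Stmt_UCX.{u} := by
  intro m r
  obtain ⟨d0, hd0⟩ := stmt_UCOL' (1 / (2 * (2 * (m : ℝ) + 1) ^ 2)) (1 / (2 * (m : ℝ) + 1) ^ 3)
    (by positivity) (by positivity)
  refine ⟨d0, ?_⟩
  intro V _ k d G U F X hd
  have hk : 0 < k := by have := X.kd; omega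
  obtain ⟨D, hD1, hD2, hD3, hD4, hD5⟩ := nums2 X
  -- the parts
  have hpart : ∀ (u : V) (a : ZMod (2 * m + 1)), ∃ p : V → ZMod (2 * m + 1), ∀ j,
      ((nb X.R u).filter (fun w => X.cell w = a)).card / (2 * m + 1) ≤
        (((nb X.R u).filter (fun w => X.cell w = a)).filter (fun w => p w = j)).card ∧
      (((nb X.R u).filter (fun w => X.cell w = a)).filter (fun w => p w = j)).card ≤
        ((nb X.R u).filter (fun w => X.cell w = a)).card / (2 * m + 1) + 1 :=
    fun u a => equi _ _
  choose pp hpp using hpart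
  set part : V → V → ZMod (2 * m + 1) := fun u w => pp u (X.cell w) w with hpartdef
  have hpart1 : ∀ u a j, ((nb X.R u).filter (fun w => X.cell w = a)).filter (fun w => pp u a w = j) =
      (nb X.R u).filter (fun w => X.cell w = a ∧ part u w = j) := by
    intro u a j
    ext w
    simp only [mem_filter, hpartdef]
    constructor
    · rintro ⟨⟨h1, h2⟩, h3⟩
      exact ⟨h1, h2, by rw [h2]; exact h3⟩
    · rintro ⟨h1, h2, h3⟩
      exact ⟨⟨h1, h2⟩, by rw [h2] at h3; exact h3⟩
  have hup : ∀ u ∈ U, ∀ a j,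
      ((nb X.R u).filter (fun w => X.cell w = a ∧ part u w = j)).card ≤ D := by
    intro u hu a j
    have h1 := (hpp u a j).2
    rw [hpart1] at h1
    have h2 : ((((nb X.R u).filter (fun w => X.cell w = a ∧ part u w = j)).card : ℕ) : ℝ) ≤ D := by
      apply hD1 _ _ (deg_cell X u hu a)
      have h3 : (((((nb X.R u).filter (fun w => X.cell w = a)).card / (2 * m + 1) : ℕ)) : ℝ) ≤
          (((nb X.R u).filter (fun w => X.cell w = a)).card : ℝ) / (2 * m + 1) := by
        have := @Nat.cast_div_le ℝ _ _ _ ((nb X.R u).filter (fun w => X.cell w = a)).card (2 * m + 1)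
        push_cast at this
        exact this
      have h4 : ((((nb X.R u).filter (fun w => X.cell w = a ∧ part u w = j)).card : ℕ) : ℝ) ≤
          (((((nb X.R u).filter (fun w => X.cell w = a)).card / (2 * m + 1) : ℕ)) : ℝ) + 1 := by
        exact_mod_cast h1
      linarith
    exact_mod_cast h2
  have hlow : ∀ u ∈ U, ∀ a j,
      ((d : ℝ) / (2 * (2 * m + 1)) - (2 * r + 1) * (X.dl * d)) / (2 * m + 1) - 1 ≤
      (((nb X.R u).filter (fun w => X.cell w = a ∧ part u w = j)).card : ℝ) := by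
    intro u hu a j
    have h1 := (hpp u a j).1
    rw [hpart1] at h1
    set n : ℕ := ((nb X.R u).filter (fun w => X.cell w = a)).card with hn
    have h2 := (abs_le.1 (deg_cell X u hu a)).1
    rw [← hn] at h2
    have h3 : (n : ℝ) ≤ (2 * m + 1) * ((n / (2 * m + 1) : ℕ) : ℝ) + (2 * m + 1) := by
      have e1 := Nat.div_add_mod n (2 * m + 1)
      have e2 := Nat.mod_lt n (show 0 < 2 * m + 1 by omega)
      have e3 : n ≤ (2 * m + 1) * (n / (2 * m + 1)) + (2 * m + 1) := by omega
      exact_mod_cast e3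
    have hM : (0 : ℝ) < 2 * m + 1 := by positivity
    have h4 : ((n / (2 * m + 1) : ℕ) : ℝ) ≤
        (((nb X.R u).filter (fun w => X.cell w = a ∧ part u w = j)).card : ℝ) := by
      exact_mod_cast h1
    refine le_trans ?_ h4
    rw [sub_le_iff_le_add, div_le_iff₀ hM]
    linarith
  -- indices of the group
  set i0 : V → V → ZMod (2 * m + 1) := fun u w => if X.side u = true then X.cell w else part u w
    with hi0
  set j0 : V → V → ZMod (2 * m + 1) := fun u w => if X.side u = true then part u w else X.cell w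
    with hj0
  set Al : V → V → Finset (Fin k) := fun u w =>
    (X.Ga.filter (fun b => X.gi b = i0 u w ∧ X.gj b = j0 u w)).filter
      (fun b => b ∉ F u ∧ b ∉ X.Pal (X.sub w)) with hAl
  have hAlc : ∀ u ∈ U, ∀ w, D ≤ (Al u w).card := by
    intro u hu w
    have h1 := grp_card X (i0 u w) (j0 u w)
    have h2 := pal_card X (i0 u w) (j0 u w) (X.sub w)
    have h3 := X.F2 u hu
    have h4 : (X.Ga.filter (fun b => X.gi b = i0 u w ∧ X.gj b = j0 u w)).card ≤
        (Al u w).card + ((F u).card +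
          (X.Ga.filter (fun b => (X.gi b = i0 u w ∧ X.gj b = j0 u w) ∧ b ∈ X.Pal (X.sub w))).card) := by
      refine le_trans (card_le_card ?_)
        ((card_union_le (Al u w) _).trans (Nat.add_le_add_left (card_union_le _ _) _))
      intro b hb
      rw [mem_filter] at hb
      rw [mem_union, mem_union]
      by_cases hF : b ∈ F u
      · exact Or.inr (Or.inl hF)
      by_cases hP : b ∈ X.Pal (X.sub w)
      · exact Or.inr (Or.inr (mem_filter.2 ⟨hb.1, hb.2, hP⟩))
      · exact Or.inl (mem_filter.2 ⟨mem_filter.2 hb, hF, hP⟩)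
    have h5 : (2 * r + 1) * X.u ≤ (Al u w).card + (2 + (2 * r + 1) * X.w) := by omega
    have h6 : (2 * (r : ℝ) + 1) * X.u ≤ (Al u w).card + (2 + (2 * (r : ℝ) + 1) * X.w) := by
      exact_mod_cast h5
    have h7 : (D : ℝ) ≤ (Al u w).card := by linarith
    exact_mod_cast h7
  have hRG : X.R ≤ G := fun v w h => h.1
  obtain ⟨t, ht1, ht2, ht3⟩ := hd0 G X.R d D k U X.Ga (ZMod (2 * m + 1) × ZMod (2 * m + 1))
    (fun u w => (i0 u w, j0 u w)) Al hk hd hD3 hD4
    (by
      have h1 := Ga_card X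
      have h2 := helper38.num_u X
      have h3 : (X.Ga.card : ℝ) ≤ (2 * (m : ℝ) + 1) ^ 2 * ((2 * (r : ℝ) + 1) * X.u) := by
        exact_mod_cast h1
      have h4 : (0 : ℝ) ≤ d := Nat.cast_nonneg d
      have h5 : (X.Ga.card : ℝ) ≤ d := by
        calc (X.Ga.card : ℝ) ≤ _ := h3
          _ = (2 * (m : ℝ) + 1) ^ 2 * X.u * (2 * (r : ℝ) + 1) := by ring
          _ ≤ 51 / 100 * d := h2
          _ ≤ d := by linarith
      exact_mod_cast h5)
    X.deg hRG X.U2
    (by
      intro u hu γ
      by_cases hs : X.side u = true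
      · refine le_trans (card_le_card ?_) (hup u hu γ.1 γ.2)
        intro w hw
        have hw := (@Finset.mem_filter V _ (_) (nb X.R u) w).1 hw
        rw [mem_filter]
        refine ⟨hw.1, ?_⟩
        have h1 := hw.2
        simp only [hi0, hj0, hs, if_true] at h1
        exact ⟨congrArg Prod.fst h1, congrArg Prod.snd h1⟩
      · refine le_trans (card_le_card ?_) (hup u hu γ.2 γ.1)
        intro w hw
        have hw := (@Finset.mem_filter V _ (_) (nb X.R u) w).1 hw
        rw [mem_filter]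
        refine ⟨hw.1, ?_⟩
        have h1 := hw.2
        simp only [hi0, hj0, hs] at h1
        exact ⟨congrArg Prod.snd h1, congrArg Prod.fst h1⟩)
    (fun u hu w _ => ⟨(filter_subset _ _).trans (filter_subset _ _), hAlc u hu w⟩)
    (by
      intro u _ w _ w' _ hne
      rw [disjoint_left]
      intro b hb hb'
      rw [hAl] at hb hb'
      simp only [mem_filter] at hb hb'
      exact hne (Prod.ext (hb.1.2.1.symm.trans hb'.1.2.1) (hb.1.2.2.symm.trans hb'.1.2.2)))
  have hmem : ∀ u w, X.R.Adj u w → w ∈ nb X.R u := fun u w h => by simpa [nb] using h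
  refine ⟨⟨t, ?_, ht2, ?_, ?_⟩⟩
  · intro u hu w hw
    have h1 := ht1 u hu w (hmem u w hw)
    rw [hAl] at h1
    simp only [mem_filter] at h1
    refine ⟨h1.1.1, ⟨fun hwU => X.UU u hu w hwU hw.1, ?_, ?_⟩, h1.2.1, h1.2.2⟩
    · intro hs
      have hs' : X.side u = true := hw.2.trans hs
      have h2 := h1.1.2.1
      simp only [hi0, hs', if_true] at h2
      exact h2
    · intro hs
      have hs' : ¬ X.side u = true := by
        have hs2 : X.side w = false := hs
        rw [hw.2, hs2]
        simp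
      have h2 := h1.1.2.2
      simp only [hj0, hs'] at h2
      exact h2
  · intro y b hb
    have h1 := ht3 y b hb
    have e1 : 1 / (2 * (m : ℝ) + 1) ^ 3 * d = d / (2 * (m : ℝ) + 1) ^ 3 := by ring
    rw [e1] at h1
    exact h1
  · intro u hu j
    set Z : Finset (Fin k) := X.Ga.filter (fun b => (X.side u = true → X.gj b = j) ∧
      (X.side u = false → X.gi b = j) ∧ ∀ w, X.R.Adj u w → t u w ≠ b) with hZ
    set oth : Fin k → ZMod (2 * m + 1) := fun b => if X.side u = true then X.gi b else X.gj b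
      with hoth
    have hZa : ∀ a, (Z.filter (fun b => oth b = a)).card +
        ((nb X.R u).filter (fun w => X.cell w = a ∧ part u w = j)).card ≤ (2 * r + 1) * X.u := by
      intro a
      set S := (nb X.R u).filter (fun w => X.cell w = a ∧ part u w = j) with hS
      have hSi : (S.image (t u)).card = S.card := by
        apply card_image_of_injOn
        intro w hw w' hw' h
        exact ht2 u hu (by simpa using (mem_filter.1 hw).1) (by simpa using (mem_filter.1 hw').1) h
      have hdis : Disjoint (Z.filter (fun b => oth b = a)) (S.image (t u)) := by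
        rw [disjoint_left]
        intro b hb hb'
        rw [mem_image] at hb'
        obtain ⟨w, hw, rfl⟩ := hb'
        have h1 := (mem_filter.1 (mem_filter.1 hb).1).2.2.2
        have h2 : X.R.Adj u w := by simpa [nb] using (mem_filter.1 hw).1
        exact h1 w h2 rfl
      rw [← hSi, ← card_union_of_disjoint hdis]
      by_cases hs : X.side u = true
      · rw [← grp_card X a j]
        apply card_le_card
        intro b hb
        rcases mem_union.1 hb with h | h
        · rw [mem_filter] at h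
          have h1 := (mem_filter.1 h.1)
          have h2 := h.2
          simp only [hoth, hs, if_true] at h2
          exact mem_filter.2 ⟨h1.1, h2, h1.2.1 hs⟩
        · rw [mem_image] at h
          obtain ⟨w, hw, rfl⟩ := h
          rw [mem_filter] at hw
          have h1 := ht1 u hu w hw.1
          rw [hAl] at h1
          simp only [mem_filter, hi0, hj0, hs, if_true] at h1
          exact mem_filter.2 ⟨h1.1.1, h1.1.2.1.trans hw.2.1, h1.1.2.2.trans hw.2.2⟩
      · have hs' : X.side u = false := by simpa using hs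
        rw [← grp_card X j a]
        apply card_le_card
        intro b hb
        rcases mem_union.1 hb with h | h
        · rw [mem_filter] at h
          have h1 := (mem_filter.1 h.1)
          have h2 := h.2
          simp only [hoth, hs] at h2
          exact mem_filter.2 ⟨h1.1, h1.2.2.1 hs', h2⟩
        · rw [mem_image] at h
          obtain ⟨w, hw, rfl⟩ := h
          rw [mem_filter] at hw
          have h1 := ht1 u hu w hw.1
          rw [hAl] at h1
          simp only [mem_filter, hi0, hj0, hs] at h1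
          exact mem_filter.2 ⟨h1.1.1, h1.1.2.1.trans hw.2.2, h1.1.2.2.trans hw.2.1⟩
    have hsum : (Z.card : ℝ) = ∑ a, ((Z.filter (fun b => oth b = a)).card : ℝ) := by
      have := Finset.card_eq_sum_card_fiberwise (f := oth) (s := Z)
        (t := (univ : Finset (ZMod (2 * m + 1)))) (fun b _ => mem_coe.2 (mem_univ _))
      rw [this]
      push_cast
      rfl
    rw [hsum]
    refine (Finset.sum_le_card_nsmul _ _ ((2 * (r : ℝ) + 1) * X.u -
      (((d : ℝ) / (2 * (2 * m + 1)) - (2 * r + 1) * (X.dl * d)) / (2 * m + 1) - 1)) ?_).trans ?_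
    · intro a _
      have h1 := hZa a
      have h2 := hlow u hu a j
      have h3 : ((Z.filter (fun b => oth b = a)).card : ℝ) +
        (((nb X.R u).filter (fun w => X.cell w = a ∧ part u w = j)).card : ℝ) ≤
          (2 * (r : ℝ) + 1) * X.u := by exact_mod_cast h1
      linarith
    · rw [card_univ, ZMod.card, nsmul_eq_mul]
      push_cast
      exact hD5

end Pool.Agent.Work.MP_db9399_exp.helper59
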